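import Pool.Agent.Helper45.AM.GoalsA
import Pool.Agent.Helper45.AM.GoalsC

/-!
# Project AM (MP_cc6379_al), packet AM-C4: (b) for a type `b` triple with at most `n` syllables.
-/

set_option autoImplicit false

open LaurentPolynomial Pool.Agent.Helper15.RA Pool.Agent.Helper45.AM

noncomputable section

namespace Pool.Agent.Helper36.AM

theorem h_c_4 (hB1 : B_1) (hB3 : B_3) (hB5 : B_5) (hC1 : C_1) (hC2 : C_2) : C_4 := by
  intro S W H _ _ _ X n hSB hSA M b x g y hT hnn
  obtain ⟨-, -, hXK, -⟩ := hB1 S W H X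
  obtain ⟨hsl0, hslT, -⟩ := hB3 S W H X
  obtain ⟨-, -, -, -, hGm, -, -, hGa⟩ := hB5 S W H X
  have hAdm : X.Adm x g y := Or.inl ⟨b, hT.1, hT.2.1, hT.2.2.2⟩
  have hslw : X.sl (x * g * y) = X.sl x + 1 + X.sl y := hslT b x g y hT
  have hn : X.nn x g y = X.sl x + 1 + X.sl y := by
    unfold AC.nn
    rw [if_neg hT.2.2.1]
  obtain ⟨hg1, hg2, -⟩ := hGa x g y hAdm
  have he0 := AC.eps_nonneg X M x g y
  have he1 := AC.eps_le_one X M x g y
  by_cases hM : M < X.α g
  · have he : X.eps M x g y = 0 :=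
      AC.eps_eq_zero X (hGm _ _ _ hM.le hg1) (hGm _ _ _ hM.le hg2)
    refine AC.LamT.of_idl (AC.B_mem_Idl hAdm hM le_rfl) ?_
    exact (hC1 S W H X x g y hAdm).mono (by omega)
  · push Not at hM
    have hd : (0 : ℤ) ≤ (M : ℤ) - X.α g - X.eps M x g y := by
      rcases hM.lt_or_eq with h | h
      · omega
      · have he : X.eps M x g y = 0 := AC.eps_eq_zero X (h ▸ hg1) (h ▸ hg2)
        omega
    obtain ⟨q, π, hq, hπ, hexp⟩ := hC2 S W H X b x g y hT
    have h1 : X.LamT M (X.nn x g y) ((M : ℤ) - X.α g - X.eps M x g y) (X.D.t (x * g * y)) :=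
      (hSA M (x * g * y) (by omega)).1.mono (by omega) hd
    have h2 : X.LamT M (X.nn x g y) ((M : ℤ) - X.α g - X.eps M x g y) (q.sum fun u p => p • X.D.t u) := by
      unfold Finsupp.sum
      refine AC.LamT.sum fun u hu => ?_
      obtain ⟨hu1, -, hu3⟩ := hq u hu
      exact AC.LamT.smul_le hu3 (hSA M u (by omega)).1 (by omega) (by omega)
    have h3 : X.LamT M (X.nn x g y) ((M : ℤ) - X.α g - X.eps M x g y)
        (π.sum fun k p => p • X.B x k y) := by
      unfold Finsupp.sum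
      refine AC.LamT.sum fun k hk => ?_
      obtain ⟨hk1, hk2, hk3⟩ := hπ k hk
      have hAk : X.Adm x k y := Or.inr ⟨(hXK b x).1 hT.1, hk1, (hXK b y).2 hT.2.2.2⟩
      have hnk : X.nn x k y = X.sl x + X.sl y := by
        unfold AC.nn
        rw [if_pos hk1, add_zero]
      have h4 := hSB M x k y hAk (by omega)
      have h5 := AC.eps_nonneg X M x k y
      by_cases h6 : (π k).coeff ((X.α k : ℤ) - X.α g) = 0
      · exact AC.LamT.smul_le (degLE_sub_one hk2 h6) h4 (by omega) (by omega)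
      · have h7 := hk3 h6 M
        exact AC.LamT.smul_le hk2 h4 (by omega) (by omega)
    rw [hexp]
    exact (h1.add h2).add h3

end Pool.Agent.Helper36.AM
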