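import Pool.Agent.Helper15.AM.GoalsG
import Pool.Agent.Helper88.RA.V2

/-!
# Project AM, packet VB: the Hecke algebra of the parabolic subgroup, inside `H`.
-/

set_option autoImplicit false

open LaurentPolynomial

noncomputable section

namespace Pool.Agent.Helper36.AM

open Pool.Agent.Helper15.RA Pool.Agent.Helper15.AM Pool.Agent.Helper45.AM Pool.Agent.Helper88.RA

/-- PACKET AM-VB. -/
theorem h_vb (hVA : V_A) (hPS : G_PS) (hH1 : H_1) (hH2 : H_2) : V_B := by
  intro I W H _ _ _ X I' e he
  obtain ⟨v1, v2, v3, -, -⟩ := hVA I W H X (Set.range e)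
  obtain ⟨n1, n2, n3, -⟩ := hPS I W X.M X.cs I' e he
  rw [← n3] at v1 v2 v3
  have t1 : X.D.t 1 = 1 := (hH1 I W H X.M X.cs X.L X.D.toHecke0).1
  have semi := (hH2 I W H X.M X.cs X.L X.wt X.D).1
  have h1 : (1 : H) ∈ Submodule.span ℤ[T;T⁻¹] (X.D.t '' ((iotaE X.cs e he).range : Set W)) := by
    rw [← t1]
    exact Submodule.subset_span ⟨1, one_mem _, rfl⟩
  have hm : ∀ g ∈ ((iotaE X.cs e he).range : Set W), ∀ g' ∈ ((iotaE X.cs e he).range : Set W),
      X.D.t g * X.D.t g' ∈ Submodule.span ℤ[T;T⁻¹] (X.D.t '' ((iotaE X.cs e he).range : Set W)) := by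
    intro g hg g' hg'
    rw [mem_span_iff]
    exact v1 g hg g' hg'
  have hR : ((iotaE X.cs e he).range : Set W) = Set.range (iotaE X.cs e he) := MonoidHom.coe_range _
  have hbar : ∀ Z ∈ Submodule.span ℤ[T;T⁻¹] (X.D.t '' ((iotaE X.cs e he).range : Set W)),
      X.D.bar Z ∈ Submodule.span ℤ[T;T⁻¹] (X.D.t '' ((iotaE X.cs e he).range : Set W)) := by
    intro Z hZ
    induction hZ using Submodule.span_induction with
    | mem x hx =>
      obtain ⟨g, hg, rfl⟩ := hx
      rw [mem_span_iff]
      exact v2 g hg
    | zero => rw [map_zero]; exact Submodule.zero_mem _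
    | add x y _ _ hx hy => rw [map_add]; exact Submodule.add_mem _ hx hy
    | smul p x _ hx => rw [semi]; exact Submodule.smul_mem _ _ hx
  set S := sAlg X.D.t ((iotaE X.cs e he).range : Set W) h1 hm with hS
  set B := sBasis h1 hm (iotaE X.cs e he) n2 hR with hB
  have B1 : ∀ a, ((B a : S) : H) = X.D.t (iotaE X.cs e he a) := sBasis_apply h1 hm (iotaE X.cs e he) n2 hR
  have simp1 : ∀ i : I', iotaE X.cs e he ((subE X.M e he).toCoxeterSystem.simple i) = X.cs.simple (e i) := by
    intro i
    unfold iotaE
    exact CoxeterSystem.lift_apply_simple _ _ i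
  let Dv0 : Hecke0 (subE X.M e he).toCoxeterSystem (fun g => X.L (iotaE X.cs e he g)) S :=
    { t := B
      mul := by
        intro w w' hw
        apply Subtype.ext
        rw [MulMemClass.coe_mul, B1, B1, B1, map_mul]
        apply X.D.mul
        rw [← map_mul, n1, n1, n1, hw]
      quad := by
        intro i
        apply Subtype.ext
        have := X.D.quad (e i)
        rw [← simp1 i] at this
        simpa [B1] using this }
  let barS : S →+* S := RingHom.codRestrict (X.D.bar.comp S.val.toRingHom) S (fun x => hbar x.1 x.2)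
  have bar1 : ∀ x : S, ((barS x : S) : H) = X.D.bar x.1 := fun x => rfl
  let Dv1 : Hecke1 (subE X.M e he).toCoxeterSystem (fun g => X.L (iotaE X.cs e he g)) S :=
    { Dv0 with
      bar := barS
      bar_bar := by
        intro x
        apply Subtype.ext
        rw [bar1, bar1, X.D.bar_bar]
      bar_t := by
        intro n w
        have h3 := X.D.bar_t n (iotaE X.cs e he w)
        rw [← map_inv] at h3
        constructor
        · apply Subtype.ext
          have h4 := h3.1
          rw [MulMemClass.coe_mul, bar1]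
          change X.D.bar (((T n : ℤ[T;T⁻¹]) • B w : S) : H) * ((B w⁻¹ : S) : H) = _
          rw [B1, SetLike.val_smul, B1, h4]
          rfl
        · apply Subtype.ext
          have h4 := h3.2
          rw [MulMemClass.coe_mul, bar1]
          change ((B w⁻¹ : S) : H) * X.D.bar (((T n : ℤ[T;T⁻¹]) • B w : S) : H) = _
          rw [B1, SetLike.val_smul, B1, h4]
          rfl }
  let Dv : Hecke (subE X.M e he).toCoxeterSystem (fun g => X.L (iotaE X.cs e he g)) S :=
    { Dv1 with
      c := fun g => ⟨X.D.c (iotaE X.cs e he g), mem_sAlg.2 (v3 (iotaE X.cs e he g) ⟨g, rfl⟩)⟩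
      bar_c := by
        intro w
        apply Subtype.ext
        exact X.D.bar_c (iotaE X.cs e he w)
      c_sub := by
        intro w y
        have h3 := X.D.c_sub (iotaE X.cs e he w) (iotaE X.cs e he y)
        change DegLE (-1) (X.D.t.repr (X.D.c (iotaE X.cs e he w) - ((B w : S) : H)) (iotaE X.cs e he y))
        rw [B1]
        exact h3 }
  refine ⟨S, inferInstance, inferInstance, Dv, S.val, Subtype.val_injective, fun g => B1 g, fun g => rfl⟩

end Pool.Agent.Helper36.AM
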